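import Pool.Agent.H58.ARR.Sful
import Pool.Agent.H69.ARR.Nbs

/-!
# H58/ARR/Fin: `SfS` and `DrS`

The two inputs of `nbS`: fullness of the digits in the slanted cells, and the derivatives of the
slanted systems.
-/

set_option autoImplicit false

namespace Pool.TUB

open Finset Real MvPolynomial
open Pool.Agent.H49.Ent Pool.Agent.H32.Dense Pool.STK Pool.KA Pool.KSAT Pool.K2S Pool.PB
  Pool.GEN Pool.M3F Pool.KAF Pool.KAL Pool.KS3 Pool.KJA Pool.KM7 Pool.S6C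
open Pool.PM (PLab MNum MDat q2)

variable {m : ℕ}

/-- **`SfS`.** -/
theorem sfS_of {S : PCl m}
    (hmem : ∀ (τ : ℝ) (J : ℕ) (F : Fam m J) (A : F.Ω → Prop), S.St τ J F A →
      F.Tr ∧ F.Tm (τ * J) ∧ F.Rb (τ * J) ∧ Real.exp (-(τ * J)) ≤ Pe F.p A)
    (hKP : KP 3) {c : ℕ → Fin m} {N : MNum} {K D : ℕ} {b y bb : ℝ} (hw0 : 0 ≤ N.w0)
    (h01 : N.w0 ≤ N.w1) (hw1 : N.w1 ≤ 1) (hb : 0 < b) (hyb : y ≤ b) (hwy : N.w1 - N.w0 ≤ y)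
    (hsl : N.sl ≤ b / 100) (h0 : N.w0 ≤ N.β 2 + b) (hβ : ∀ i < 2, N.β i ≤ N.β 2 + b)
    (hex : ExvY S N.w1 (fun J F ω (i : Fin 3) => F.X J ω (c i)) bb)
    (hbb : (∑ i ∈ range 3, (1 - N.β i)) - N.fall - y ≤ bb) : SfS S c N K D b := by
  obtain ⟨φ, hφ, h⟩ := sful hmem hKP (K := K) (D := D) hw0 h01 hw1 hb hyb hwy hsl h0 hβ hex hbb
  exact ⟨φ, hφ, h.mono 0 fun J _ F A hh d lv Q P hQ hd hsh hWP hP hwd R hR =>
    hh d lv Q P ⌊N.sN * J⌋₊ hQ hd hsh hWP hP hwd R hR⟩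

/-- **`DrS`.** -/
theorem drS_of (S : PCl m) (c : ℕ → Fin m) {N : MNum} (K D : ℕ) {b : ℝ} (hw0 : 0 ≤ N.w0)
    (hb : 0 < b) (hsl : N.sl ≤ b / 100) (h0 : N.w0 ≤ N.β 2 + b) (hβ : ∀ i < 2, N.β i ≤ N.β 2 + b) :
    DrS S c N K D b := by
  obtain ⟨J₁, hJ₁⟩ := exists_nat_ge (8 / b)
  refine ⟨b / 8, by positivity, 1, one_pos, J₁, fun J hJ F A _ d lv e hA _ he R hR i l x => ?_⟩
  have hJ1 : (J₁ : ℝ) ≤ J := by exact_mod_cast hJ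
  have hbJ : 8 ≤ b * J := by
    have h1 := hJ₁.trans hJ1
    rw [div_le_iff₀ hb] at h1
    linarith
  exact sG_der d lv hb (by positivity) le_rfl hbJ hw0 hsl h0 hβ hA he hR _ i l x

end Pool.TUB
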