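import Pool.Agent.H15.GEO.Cel
import Pool.Agent.H15.GEO.Aff
import Pool.Agent.H3.PM.Dat

/-!
# H58/ARR/Der: the derivatives of the slanted system

`der_shN`: the derivatives of the sheet of `c 2`. `sG_le`: the derivatives of the slanted system of
a label with a sheet of size `2 ^ (b J)` are at most `2 ^ (3 b J)`.
-/

set_option autoImplicit false

namespace Pool.TUB

open Finset Real MvPolynomial
open Pool.Agent.H49.Ent Pool.Agent.H32.Dense Pool.STK Pool.KA Pool.KSAT Pool.K2S Pool.PB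
  Pool.STAT Pool.STAT.CLO Pool.GEN Pool.M3F Pool.KAF Pool.KAL Pool.KS3 Pool.KJA
open Pool.GEO (gsy gsy_zero gsy_succ gsy_tri gsy_deg)
open Pool.PM (lev nx nt lfv PLab MNum MDat)
open Pool.JPN (ntc ce yc)

/-- The derivatives of an affine polynomial in the natural units are constant. -/
theorem pd_toF {W : ℕ} {p : PN} (hp : p.totalDegree ≤ 1) (x : Fin 4 → ℝ) (l : Fin 4) :
    eval x (pderiv l (toF 4 W p)) = eval 0 (pderiv l.val p) := by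
  have h1 : (toF 4 W p).totalDegree ≤ 1 := (deg_toF p).trans hp
  rw [aff_pd h1 x l, ← aff_pd h1 (fun _ => 0) l, eval_pderiv_toF]
  congr 2
  funext i
  unfold unF
  split_ifs
  · simp
  · rfl

/-- A derivative of a chart. -/
theorem pd_chart {P : ℕ → PN} (hP : TriN P) {B : ℝ} (hB : 0 ≤ B) {i : ℕ}
    (h : ∀ l < i, |eval 0 (pderiv l (P i))| ≤ B) (l : ℕ) : |eval 0 (pderiv l (P i))| ≤ B := by
  rcases Nat.lt_or_ge l i with hl | hl
  · exact h l hl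
  · have h1 : pderiv l (P i) = 0 := by
      refine pderiv_eq_zero_of_notMem_vars fun h2 => ?_
      have h3 := Finset.mem_range.1 (hP i h2)
      omega
    rw [h1, map_zero, abs_zero]
    exact hB

/-- The value of a derivative of the sheet. -/
theorem pd_shN (P : ℕ → PN) (g : ℕ → ℕ) (W₀ T₁ : ℕ) (q : Fin 4 → ℝ) (l : ℕ) :
    eval 0 (pderiv l (shN P g W₀ T₁ q)) = eval 0 (pderiv l (P 3)) + 1 / 2 ^ g 2 *
      (q 1 * (2 ^ W₀ * (if l = 0 then 1 else 0)) +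
        q 2 * (2 ^ g 0 * ((if l = 1 then 1 else 0) - eval 0 (pderiv l (P 1)))) +
        q 3 * (2 ^ g 1 * ((if l = 2 then 1 else 0) - eval 0 (pderiv l (P 2))))) := by
  have hX : ∀ i : ℕ, eval (0 : ℕ → ℝ) (pderiv l (MvPolynomial.X i : PN)) =
      if l = i then 1 else 0 := by
    intro i
    rw [pderiv_X]
    by_cases h : l = i
    · subst h
      rw [Pi.single_eq_same, map_one, if_pos rfl]
    · rw [Pi.single_eq_of_ne (Ne.symm h), map_zero, if_neg h]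
  unfold shN
  rw [map_add, map_add, pderiv_C_mul, map_mul, eval_C]
  simp only [map_add, map_sub, pderiv_C_mul, pderiv_C, map_mul, eval_C, map_zero, hX]
  ring

/-- **The derivatives of the sheet.** -/
theorem der_shN {P : ℕ → PN} (hP : TriN P) {B S H : ℝ} (hB : 1 ≤ B)
    (hPB : ∀ i, i ≤ 3 → ∀ l < i, |eval 0 (pderiv l (P i))| ≤ B) {g : ℕ → ℕ} {W₀ : ℕ} (T₁ : ℕ)
    {q : Fin 4 → ℝ} (hq : ∀ i, |q i| ≤ H) (hH : 1 ≤ H) (hS : 1 ≤ S) (h0 : (2 : ℝ) ^ W₀ ≤ S * 2 ^ g 2)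
    (h1 : (2 : ℝ) ^ g 0 ≤ S * 2 ^ g 2) (h2 : (2 : ℝ) ^ g 1 ≤ S * 2 ^ g 2) (l : ℕ) :
    |eval 0 (pderiv l (shN P g W₀ T₁ q))| ≤ 6 * (H * S * B) := by
  have hB0 : (0 : ℝ) ≤ B := zero_le_one.trans hB
  have p2 : (0 : ℝ) < 2 ^ g 2 := by positivity
  have c3 := pd_chart hP hB0 (hPB 3 le_rfl) l
  have c1 := pd_chart hP hB0 (hPB 1 (by norm_num)) l
  have c2 := pd_chart hP hB0 (hPB 2 (by norm_num)) l
  have key : ∀ (a d x : ℝ) (n : ℕ), |a| ≤ H → (2 : ℝ) ^ n ≤ S * 2 ^ g 2 → |x| ≤ d →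
      |1 / 2 ^ g 2 * (a * (2 ^ n * x))| ≤ H * S * d := by
    intro a d x n ha hn hx
    have hd : 0 ≤ d := (abs_nonneg _).trans hx
    rw [abs_mul, abs_mul, abs_mul, abs_of_pos (by positivity : (0 : ℝ) < 1 / 2 ^ g 2),
      abs_of_pos (by positivity : (0 : ℝ) < 2 ^ n)]
    rw [one_div, inv_mul_le_iff₀ p2]
    calc |a| * (2 ^ n * |x|) ≤ H * (S * 2 ^ g 2 * d) :=
          mul_le_mul ha (mul_le_mul hn hx (abs_nonneg _) (by positivity)) (by positivity)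
            (by linarith)
      _ = 2 ^ g 2 * (H * S * d) := by ring
  have hite : ∀ i : ℕ, |(if l = i then (1 : ℝ) else 0)| ≤ 1 := by
    intro i
    split_ifs
    · rw [abs_one]
    · rw [abs_zero]
      exact zero_le_one
  have k0 := key (q 1) 1 _ W₀ (hq 1) h0 (hite 0)
  have k1 := key (q 2) (1 + B) ((if l = 1 then (1 : ℝ) else 0) - eval 0 (pderiv l (P 1))) (g 0)
    (hq 2) h1 ((abs_sub _ _).trans (add_le_add (hite 1) c1))
  have k2 := key (q 3) (1 + B) ((if l = 2 then (1 : ℝ) else 0) - eval 0 (pderiv l (P 2))) (g 1)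
    (hq 3) h2 ((abs_sub _ _).trans (add_le_add (hite 2) c2))
  rw [pd_shN]
  rw [mul_add, mul_add]
  have hHS : 1 ≤ H * S := one_le_mul_of_one_le_of_one_le hH hS
  have hHS0 : 0 ≤ H * S := by linarith
  have hle : B ≤ H * S * B := le_mul_of_one_le_left hB0 hHS
  have hle2 : H * S ≤ H * S * B := le_mul_of_one_le_right hHS0 hB
  have t1 := abs_add_le (eval 0 (pderiv l (P 3))) (1 / 2 ^ g 2 * (q 1 * (2 ^ W₀ *
    (if l = 0 then 1 else 0))) + 1 / 2 ^ g 2 * (q 2 * (2 ^ g 0 * ((if l = 1 then 1 else 0) -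
      eval 0 (pderiv l (P 1))))) + 1 / 2 ^ g 2 * (q 3 * (2 ^ g 1 * ((if l = 2 then 1 else 0) -
      eval 0 (pderiv l (P 2))))))
  have t2 := abs_add_le (1 / 2 ^ g 2 * (q 1 * (2 ^ W₀ *
    (if l = 0 then 1 else 0))) + 1 / 2 ^ g 2 * (q 2 * (2 ^ g 0 * ((if l = 1 then 1 else 0) -
      eval 0 (pderiv l (P 1)))))) (1 / 2 ^ g 2 * (q 3 * (2 ^ g 1 * ((if l = 2 then 1 else 0) -
      eval 0 (pderiv l (P 2))))))
  have t3 := abs_add_le (1 / 2 ^ g 2 * (q 1 * (2 ^ W₀ *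
    (if l = 0 then 1 else 0)))) (1 / 2 ^ g 2 * (q 2 * (2 ^ g 0 * ((if l = 1 then 1 else 0) -
      eval 0 (pderiv l (P 1))))))
  have e1 : H * S * (1 + B) = H * S + H * S * B := by ring
  have e2 : H * S * 1 = H * S := mul_one _
  rw [e1] at k1 k2
  rw [e2] at k0
  linarith

/-- **The derivatives of the slanted system**, pure. -/
theorem der_sls {P : ℕ → PN} (hP : TriN P) (ha : ∀ i, (P i).totalDegree ≤ 1) {B S H : ℝ}
    (hB : 1 ≤ B) (hPB : ∀ i, i ≤ 3 → ∀ l < i, |eval 0 (pderiv l (P i))| ≤ B) {g : ℕ → ℕ}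
    {W W₀ : ℕ} (T₁ : ℕ) {q : Fin 4 → ℝ} (hq : ∀ i, |q i| ≤ H) (hH : 1 ≤ H) (hS : 1 ≤ S)
    (h0 : (2 : ℝ) ^ W₀ ≤ S * 2 ^ g 2) (h1 : (2 : ℝ) ^ g 0 ≤ S * 2 ^ g 2)
    (h2 : (2 : ℝ) ^ g 1 ≤ S * 2 ^ g 2) (i l : Fin 4) (x : Fin 4 → ℝ) :
    |eval x (pderiv l (gsy 3 W (sls P g W₀ T₁ q) i))| ≤ 6 * (H * S * B) := by
  have hB0 : (0 : ℝ) ≤ B := zero_le_one.trans hB
  have hHS : 1 ≤ H * S := one_le_mul_of_one_le_of_one_le hH hS
  have hle : B ≤ H * S * B := le_mul_of_one_le_left hB0 hHS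
  have h6 : B ≤ 6 * (H * S * B) := by linarith
  refine Fin.cases ?_ (fun i => ?_) i
  · rw [gsy_zero, map_zero, map_zero, abs_zero]
    linarith
  · rw [gsy_succ]
    have hd := sls_deg ha g W₀ T₁ q (i.val + 1)
    have e1 := pd_toF (W := W) hd x l
    have e2 : eval x (pderiv l (toF (3 + 1) W (sls P g W₀ T₁ q (i.val + 1)))) =
        eval 0 (pderiv l.val (sls P g W₀ T₁ q (i.val + 1))) := e1
    rw [e2]
    unfold sls
    split_ifs with h3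
    · exact der_shN hP hB hPB T₁ hq hH hS h0 h1 h2 l.val
    · have hi := i.2
      exact (pd_chart hP hB0 (hPB (i.val + 1) (by omega)) l.val).trans h6

/-- The numbers. -/
theorem num_der {b φ J' : ℝ} (hφ0 : 0 ≤ φ) (hφ : φ ≤ b / 8) (hJ : 8 ≤ b * J')
    (hJ0 : 0 ≤ J') {H S B : ℝ} (hH0 : 0 ≤ H) (hH : H ≤ 2 ^ (b * J')) (hS0 : 0 ≤ S)
    (hS : S ≤ 2 ^ ((b + 2 * φ) * J')) (hB : B ≤ Real.exp ((b / 100 + φ) * J')) (hB0 : 0 ≤ B) :
    6 * (H * S * B) ≤ 2 ^ ⌊3 * b * J'⌋₊ := by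
  have hφJ : 0 ≤ φ * J' := mul_nonneg hφ0 hJ0
  have h1 : B ≤ 2 ^ (b / 4 * J') := by
    refine hB.trans ?_
    rw [Real.rpow_def_of_pos two_pos]
    refine Real.exp_le_exp.2 ?_
    have h5 : φ * J' ≤ b / 8 * J' := mul_le_mul_of_nonneg_right hφ hJ0
    have h6 : (693 / 1000 : ℝ) * (b / 4 * J') ≤ Real.log 2 * (b / 4 * J') := by
      refine mul_le_mul_of_nonneg_right ?_ (by linarith)
      have := Real.log_two_gt_d9
      linarith
    linarith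
  have h2 : H * S * B ≤ 2 ^ (b * J') * 2 ^ ((b + 2 * φ) * J') * 2 ^ (b / 4 * J') :=
    mul_le_mul (mul_le_mul hH hS hS0 (by positivity)) h1 hB0 (by positivity)
  rw [← Real.rpow_add two_pos, ← Real.rpow_add two_pos] at h2
  have h3 : (6 : ℝ) ≤ 2 ^ (3 : ℝ) := by
    rw [show (3 : ℝ) = ((3 : ℕ) : ℝ) by norm_num, Real.rpow_natCast]
    norm_num
  calc 6 * (H * S * B) ≤ 2 ^ (3 : ℝ) * 2 ^ (b * J' + (b + 2 * φ) * J' + b / 4 * J') :=
        mul_le_mul h3 h2 (by positivity) (by positivity)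
    _ = 2 ^ (3 + (b * J' + (b + 2 * φ) * J' + b / 4 * J')) := (Real.rpow_add two_pos _ _).symm
    _ ≤ 2 ^ ((⌊3 * b * J'⌋₊ : ℕ) : ℝ) := by
        refine Real.rpow_le_rpow_of_exponent_le one_le_two ?_
        have h4 := Nat.lt_floor_add_one (3 * b * J')
        have h5 : φ * J' ≤ b / 8 * J' := mul_le_mul_of_nonneg_right hφ hJ0
        nlinarith
    _ = 2 ^ ⌊3 * b * J'⌋₊ := Real.rpow_natCast _ _

variable {m J : ℕ}

/-- Powers of two. -/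
theorem two_pow_le {n k : ℕ} {x : ℝ} (h : (n : ℝ) ≤ x + k) : (2 : ℝ) ^ n ≤ 2 ^ x * 2 ^ k := by
  rw [← Real.rpow_natCast 2 n, ← Real.rpow_natCast 2 k, ← Real.rpow_add two_pos]
  exact Real.rpow_le_rpow_of_exponent_le one_le_two h

/-- **The derivatives of the slanted system** of a label with a sheet of size `2 ^ (b J)`. -/
theorem sG_le {N : MNum} {φ : ℝ} {K D : ℕ} {F : Fam m J} {c : ℕ → Fin m} {A : F.Ω → Prop}
    (d : MDat N φ K D F c A) (lv : d.lb.V₁ → d.lb.V₀ → Fin 4 → ℝ) {b : ℝ} (hb : 0 < b)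
    (hφ0 : 0 ≤ φ) (hφ : φ ≤ b / 8) (hJ : 8 ≤ b * J) (hw : 0 ≤ N.w0) (hsl : N.sl ≤ b / 100)
    (h0 : N.w0 ≤ N.β 2 + b) (hβ : ∀ i < 2, N.β i ≤ N.β 2 + b) {ω : F.Ω} (hA : A ω)
    {γ : d.lb.V₁ × (d.lb.V₀ × ℕ)} (hγ : γ.2.1 = d.u (ptr F J ω))
    (hq : ∀ i, |lv γ.1 γ.2.1 i| ≤ 2 ^ ⌊b * J⌋₊) (W : ℕ) (i l : Fin 4) (x : Fin 4 → ℝ) :
    |eval x (pderiv l (sG d.lb W ⌊N.w0 * J⌋₊ lv γ i))| ≤ 2 ^ ⌊3 * b * J⌋₊ := by
  have hJ0 : (0 : ℝ) ≤ J := Nat.cast_nonneg J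
  have hφJ : 0 ≤ φ * J := mul_nonneg hφ0 hJ0
  have hbJ : 0 ≤ b * J := mul_nonneg hb.le hJ0
  have hP : d.lb.P γ.2.1 = d.Q (d.u (ptr F J ω)) := by rw [hγ]; rfl
  have hg2 := (abs_le.1 (d.numU 2 (by norm_num))).1
  have hexp : Real.exp ((N.sl + φ) * J) ≤ Real.exp ((b / 100 + φ) * J) := by
    refine Real.exp_le_exp.2 (mul_le_mul_of_nonneg_right (by linarith) hJ0)
  have hexp2 : Real.exp (φ * J) ≤ Real.exp ((b / 100 + φ) * J) := by
    refine Real.exp_le_exp.2 (mul_le_mul_of_nonneg_right (by linarith) hJ0)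
  refine le_trans (der_sls (P := d.lb.P γ.2.1) (B := Real.exp ((b / 100 + φ) * J))
    (S := (2 : ℝ) ^ ((b + 2 * φ) * J)) (H := 2 ^ ⌊b * J⌋₊) (g := d.gU) ?_ ?_
    (Real.one_le_exp (mul_nonneg (by linarith) hJ0)) ?_ γ.2.2 hq (one_le_pow₀ one_le_two) ?_ ?_ ?_ ?_ i l x)
    (num_der hφ0 hφ hJ hJ0 (by positivity) ?_ (by positivity) le_rfl le_rfl
      (Real.exp_pos _).le)
  · rw [hP]
    exact d.tri _
  · rw [hP]
    exact d.aff _
  · rw [hP]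
    intro i hi l hl
    rcases Nat.lt_or_ge i 3 with h | h
    · exact (d.slU ω hA i (by omega) l hl).trans hexp2
    · have e1 : i = 3 := by omega
      subst e1
      exact (d.slV ω hA l hl).trans hexp
  · exact Real.one_le_rpow one_le_two (mul_nonneg (by linarith) hJ0)
  · refine two_pow_le ?_
    have h1 := Nat.floor_le (mul_nonneg hw hJ0)
    have h2 := mul_le_mul_of_nonneg_right h0 hJ0
    nlinarith
  · refine two_pow_le ?_
    have h1 := (abs_le.1 (d.numU 0 (by norm_num))).2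
    have h2 := mul_le_mul_of_nonneg_right (hβ 0 (by norm_num)) hJ0
    nlinarith
  · refine two_pow_le ?_
    have h1 := (abs_le.1 (d.numU 1 (by norm_num))).2
    have h2 := mul_le_mul_of_nonneg_right (hβ 1 (by norm_num)) hJ0
    nlinarith
  · rw [← Real.rpow_natCast 2 ⌊b * (J : ℝ)⌋₊]
    exact Real.rpow_le_rpow_of_exponent_le one_le_two (Nat.floor_le hbJ)

/-- The same, for the foreign and for the own leaf of a pair on the sheets. -/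
theorem sG_der {N : MNum} {φ : ℝ} {K D : ℕ} {F : Fam m J} {c : ℕ → Fin m} {A : F.Ω → Prop}
    (d : MDat N φ K D F c A) (lv : d.lb.V₁ → d.lb.V₀ → Fin 4 → ℝ) {b : ℝ} (hb : 0 < b)
    (hφ0 : 0 ≤ φ) (hφ : φ ≤ b / 8) (hJ : 8 ≤ b * J) (hw : 0 ≤ N.w0) (hsl : N.sl ≤ b / 100)
    (h0 : N.w0 ≤ N.β 2 + b) (hβ : ∀ i < 2, N.β i ≤ N.β 2 + b) {e : F.Ω × F.Ω} (hA : A e.1)
    {L : ℕ} (he : d.lb.Shv c ⌊N.w0 * J⌋₊ ⌊b * J⌋₊ L lv e)
    {R : F.Ω × F.Ω → d.lb.V₁ × (d.lb.V₀ × ℕ)}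
    (hR : R = lbF d.lb ⌊N.w0 * J⌋₊ ∨ R = lbO d.lb ⌊N.w0 * J⌋₊) (W : ℕ) (i l : Fin 4)
    (x : Fin 4 → ℝ) :
    |eval x (pderiv l (sG d.lb W ⌊N.w0 * J⌋₊ lv (R e) i))| ≤ 2 ^ ⌊3 * b * J⌋₊ := by
  rcases hR with rfl | rfl
  · exact sG_le (γ := lbF d.lb ⌊N.w0 * J⌋₊ e) d lv hb hφ0 hφ hJ hw hsl h0 hβ hA rfl
      (fun i => (he.2.2 i).2) W i l x
  · exact sG_le (γ := lbO d.lb ⌊N.w0 * J⌋₊ e) d lv hb hφ0 hφ hJ hw hsl h0 hβ hA rfl
      (fun i => (he.2.2 i).1) W i l x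

end Pool.TUB
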