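import Pool.Agent.H58.ARR.Der
import Pool.Agent.H53.JM.Tilt
import Pool.Agent.H53.JM.Fux
import Pool.Agent.H37.STPA.Reg2

/-!
# H58/ARR/Sful: fullness of the digits in the slanted cells

`tmC_of`: the times, in a class. `own_pair`: pairs of samples of one line with a given law of the
first sample. `ent_two`: the entropies of the positions and of the times given the label of a pair,
for the foreign and for the own leaf. `idx_S`: the index of the slanted cell has few values.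
`sful`: the digits of the exact point in the slanted cells are almost full given the label.
-/

set_option autoImplicit false

namespace Pool.TUB

open Finset Real MvPolynomial
open Pool.Agent.H49.Ent Pool.Agent.H32.Dense Pool.STK Pool.KA Pool.KSAT Pool.K2S Pool.PB
  Pool.STAT Pool.STAT.CLO Pool.GEN Pool.M3F Pool.KAF Pool.KAL Pool.KS3 Pool.KJA Pool.KM7 Pool.S6C
open Pool.GEO (gsy gsy_zero gsy_succ gsy_tri gsy_deg xte xte_near xte_dig xte_zero)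
open Pool.PM (lev nx nt lfv PLab MNum MDat q2)
open Pool.JPN (ntc dens_time)
open Pool.JPR (full_dens)
open Pool.GRW (TmWn)

variable {m J : ℕ}

/-- The times, in a class. -/
theorem tmC_of {S : PCl m}
    (hmem : ∀ (τ : ℝ) (J : ℕ) (F : Fam m J) (A : F.Ω → Prop), S.St τ J F A →
      F.Tr ∧ F.Tm (τ * J) ∧ F.Rb (τ * J) ∧ Real.exp (-(τ * J)) ≤ Pe F.p A) : TmC S 6 := by
  intro τ J F A _ hS
  obtain ⟨hTr, hTm, hRb, hPe⟩ := hmem _ J F A hS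
  have hA : 0 < Pe F.p A := lt_of_lt_of_le (Real.exp_pos _) hPe
  refine ⟨hA, fun h => ?_⟩
  have h1 := Pool.STPA.sub_Tm_of_reg hTr hTm hRb hA hPe
  have h3 : CH (Pool.FLF.Fam.sub F A hA).p (Pool.FLF.Fam.sub F A hA).T
      (fun ω => ((Pool.FLF.Fam.sub F A hA).l ω, (Pool.FLF.Fam.sub F A hA).Z ω)) =
      CH (Pool.Agent.H49.Ent.cond F.p A True) F.T (fun ω => (F.l ω, F.Z ω)) :=
    Pool.FLF.sub_CH F.T (fun ω => (F.l ω, F.Z ω))
  have h5 : CH (F.res A True h).p (F.res A True h).T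
      (fun ω => ((F.res A True h).l ω, (F.res A True h).Z ω)) =
      CH (Pool.Agent.H49.Ent.cond F.p A True) F.T (fun ω => (F.l ω, F.Z ω)) := rfl
  unfold Fam.Tm at h1 ⊢
  rw [h3] at h1
  rw [h5]
  linarith

/-- Pairs of samples of one line with a given law of the first sample. -/
theorem own_pair {Ω GT : Type} [Fintype Ω] {p r : Ω → ℝ} (hp : IsLaw p) (hr : IsLaw r) {C : ℝ}
    (hC : 0 ≤ C) (hd : ∀ ω, r ω ≤ C * p ω) (g : Ω → GT) :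
    ∃ Q : Ω × Ω → ℝ, IsLaw Q ∧ Psh Q Prod.fst r ∧ ∀ e, Q e ≤ C * P2 p g e := by
  classical
  have hq := P2_isLaw hp g
  have hq0 := hq.nonneg
  have hfst : ∀ ω, ∑ ω', P2 p g (ω, ω') = p ω := by
    intro ω
    have h2 : law (P2 p g) Prod.fst ω = ∑ ω', P2 p g (ω, ω') := by
      unfold law
      rw [Fintype.sum_prod_type, Finset.sum_eq_single ω]
      · refine Finset.sum_congr rfl fun ω' _ => ?_
        rw [if_pos rfl]
      · intro b _ hb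
        refine Finset.sum_eq_zero fun ω' _ => ?_
        rw [if_neg hb]
      · intro h
        exact absurd (Finset.mem_univ _) h
    rw [← h2]
    exact P2_fst hp g ω
  obtain ⟨D, hD⟩ : ∃ D : Ω → ℝ, D = fun ω => r ω / p ω := ⟨_, rfl⟩
  have hD0 : ∀ ω, 0 ≤ D ω := fun ω => by
    rw [hD]
    exact div_nonneg (hr.nonneg ω) (hp.nonneg ω)
  have hDC : ∀ ω, D ω ≤ C := fun ω => by
    rw [hD]
    exact div_le_of_le_mul₀ (hp.nonneg ω) hC (hd ω)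
  have hDp : ∀ ω, D ω * p ω = r ω := fun ω => by
    rw [hD]
    rcases (hp.nonneg ω).eq_or_lt with h | h
    · have h1 := hd ω
      have h2 := hr.nonneg ω
      rw [← h, mul_zero] at h1
      rw [← h, mul_zero]
      linarith
    · simp only
      field_simp
  have hrow : ∀ ω, ∑ ω', D ω * P2 p g (ω, ω') = r ω := fun ω => by
    rw [← Finset.mul_sum, hfst, hDp]
  refine ⟨fun e => D e.1 * P2 p g e, ⟨fun e => mul_nonneg (hD0 _) (hq0 e), ?_⟩, ?_, fun e =>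
    mul_le_mul_of_nonneg_right (hDC _) (hq0 e)⟩
  · rw [Fintype.sum_prod_type]
    simp only [hrow]
    exact hr.sum_one
  · intro ω
    unfold law
    rw [Fintype.sum_prod_type, Finset.sum_eq_single ω]
    · refine Eq.trans ?_ (hrow ω)
      refine Finset.sum_congr rfl fun ω' _ => ?_
      rw [if_pos rfl]
    · intro b _ hb
      refine Finset.sum_eq_zero fun ω' _ => ?_
      rw [if_neg hb]
    · intro h
      exact absurd (Finset.mem_univ _) h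

/-- The law of the first sample. -/
theorem fst_law {Ω GT : Type} [Fintype Ω] {p : Ω → ℝ} (hp : IsLaw p) {g : Ω → GT}
    {Q : Ω × Ω → ℝ} (hQ : IsLaw Q) {C : ℝ} (hd : ∀ e, Q e ≤ C * P2 p g e) :
    ∃ r : Ω → ℝ, IsLaw r ∧ Psh Q Prod.fst r ∧ ∀ ω, r ω ≤ C * p ω := by
  obtain ⟨r, hr⟩ : ∃ r : Ω → ℝ, r = fun ω => law Q Prod.fst ω := ⟨_, rfl⟩
  have hpsh : Psh Q Prod.fst r := fun ω => by rw [hr]
  refine ⟨r, ⟨fun ω => ?_, ?_⟩, hpsh, fun ω => ?_⟩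
  · rw [hr]
    exact law_nonneg hQ.nonneg _ _
  · have h5 := hpsh.Ex_eq (fun _ => (1 : ℝ))
    unfold Pool.Agent.H32.Dense.Ex at h5
    simp only [mul_one] at h5
    rw [← h5, hQ.sum_one]
  · have h5 := P2_fst hp g ω
    rw [hr, ← h5]
    simp only
    unfold law
    rw [Finset.mul_sum]
    refine Finset.sum_le_sum fun e _ => ?_
    split_ifs
    · exact hd e
    · rw [mul_zero]

/-- **The entropies of the positions and of the times**, given the label of a pair. -/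
theorem ent_two (h : KP 3) {S : PCl m}
    (hmem : ∀ (τ : ℝ) (J : ℕ) (F : Fam m J) (A : F.Ω → Prop), S.St τ J F A →
      F.Tr ∧ F.Tm (τ * J) ∧ F.Rb (τ * J) ∧ Real.exp (-(τ * J)) ≤ Pe F.p A)
    {w₀ w₁ : ℝ} (h01 : w₀ ≤ w₁) (hw1 : w₁ ≤ 1) {c : ℕ → Fin m} {bb : ℝ}
    (hex : ExvY S w₁ (fun J F ω (i : Fin 3) => F.X J ω (c i)) bb) {C : ℝ} (hC : 1 ≤ C) {ρ : ℝ}
    (hρ : 0 < ρ) :
    Bas S (fun J F A => 0 < Pe F.p A ∧ ∀ l : PLab F,
      (∀ ω, A ω → l.z₀ (ptr F J ω) = l.z₀' (slam F ⌊w₀ * J⌋₊ ω)) →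
      (∀ ω, A ω → l.z₁ (ptr F J ω) = l.z₁' (slam F ⌊w₁ * J⌋₊ ω)) →
      ∀ Q : F.Ω × F.Ω → ℝ, IsLaw Q → (∀ e, Q e ≤ C * q2 F A ⌊w₀ * J⌋₊ e) →
      ∀ R : F.Ω × F.Ω → l.V₁ × (l.V₀ × ℕ), (R = lbF l ⌊w₀ * J⌋₊ ∨ R = lbO l ⌊w₀ * J⌋₊) →
      (bb - ρ) * Real.log 2 * J ≤ CH Q (fun e (i : Fin 3) => F.X J e.1 (c i))
        (fun e => (F.T e.1, R e)) ∧
      ((J - ⌊w₁ * J⌋₊ : ℕ) : ℝ) * Real.log 2 - ρ * J ≤ CH Q (fun e => F.T e.1) R) := by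
  classical
  have hC0 : 0 ≤ C := zero_le_one.trans hC
  have htm : ∀ w, TmWn S w := fun w => Pool.GRW.TmC.wn (tmC_of hmem) w
  refine (((full_dens h (h01.trans hw1) (htm w₀) (c := fun i : Fin 3 => c i) hex hC hρ).and
    (full_dens h hw1 (htm w₁) (c := fun i : Fin 3 => c i) hex hC hρ)).and
    ((dens_time (h01.trans hw1) (htm w₀) hC hρ).and (dens_time hw1 (htm w₁) hC hρ))).mono 0 ?_
  rintro J - F A ⟨⟨⟨hA, hf0⟩, ⟨-, hf1⟩⟩, ⟨⟨-, ht0⟩, ⟨-, ht1⟩⟩⟩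
  refine ⟨hA, ?_⟩
  intro l hc0 hc1 Q hQ hd R hR
  have hJ0 : (0 : ℝ) ≤ J := Nat.cast_nonneg J
  obtain ⟨W₀, hW₀⟩ : ∃ W, W = ⌊w₀ * (J : ℝ)⌋₊ := ⟨_, rfl⟩
  obtain ⟨W₁, hW₁⟩ : ∃ W, W = ⌊w₁ * (J : ℝ)⌋₊ := ⟨_, rfl⟩
  have hW : W₀ ≤ W₁ := by
    rw [hW₀, hW₁]
    exact Nat.floor_le_floor (mul_le_mul_of_nonneg_right h01 hJ0)
  have hW1J : W₁ ≤ J := by
    have h1 : ⌊w₁ * (J : ℝ)⌋₊ ≤ ⌊(J : ℝ)⌋₊ :=
      Nat.floor_le_floor (by
        calc w₁ * (J : ℝ) ≤ 1 * J := mul_le_mul_of_nonneg_right hw1 hJ0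
          _ = J := one_mul _)
    rw [Nat.floor_natCast] at h1
    rw [hW₁]
    exact h1
  rw [← hW₀] at hc0 hd hf0 ht0 hR
  rw [← hW₁] at hc1 hf0 hf1 ht1 ⊢
  have hl := isLaw_cond F.isLaw hA
  have hl2 : 0 < Real.log 2 := Real.log_pos one_lt_two
  have e0 : ∀ ω, l.z₀' ((slam F W₁ ω).1, (slam F W₁ ω).2.1, (slam F W₁ ω).2.2 / 2 ^ (W₁ - W₀)) =
      l.z₀' (slam F W₀ ω) := fun ω => by rw [← slam_coarse F hW hW1J ω]
  have hcl : ∀ ω, A ω → (l.z₀ (ptr F J ω), l.z₁ (ptr F J ω)) =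
      (l.z₀' ((slam F W₁ ω).1, (slam F W₁ ω).2.1, (slam F W₁ ω).2.2 / 2 ^ (W₁ - W₀)),
        l.z₁' (slam F W₁ ω)) := fun ω hω => by
    rw [e0, ← hc0 ω hω, hc1 ω hω]
  have hT1 : ∀ (w : ℕ) (ω ω' : F.Ω), slam F w ω = slam F w ω' → F.T1 w ω = F.T1 w ω' :=
    fun w ω ω' h => (Prod.ext_iff.1 (Prod.ext_iff.1 h).2).2
  have hTW : ∀ ω ω' : F.Ω, F.T ω = F.T ω' → F.T1 W₀ ω = F.T1 W₀ ω' := fun ω ω' h => by
    unfold Fam.T1
    rw [h]
  have hsc : ∀ ω ω' : F.Ω, slam F W₁ ω = slam F W₁ ω' → slam F W₀ ω = slam F W₀ ω' :=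
    fun ω ω' h => by rw [slam_coarse F hW hW1J ω, slam_coarse F hW hW1J ω', h]
  rcases hR with rfl | rfl
  · -- the foreign leaf
    have hsup : ∀ e, 0 < Q e → A e.1 ∧ A e.2 ∧ slam F W₀ e.1 = slam F W₀ e.2 := by
      intro e he
      have h1 : 0 < P2 (Pool.Agent.H49.Ent.cond F.p A True) (slam F W₀) e :=
        pos_of_mul_pos_right (he.trans_le (hd e)) hC0
      have h3 := (P2_pos hl e).1 h1
      exact ⟨cond_supp h3.1, cond_supp h3.2.1, h3.2.2⟩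
    have hz0 : ∀ e, 0 < Q e → l.z₀ (ptr F J e.1) = l.z₀ (ptr F J e.2) := by
      intro e he
      obtain ⟨a1, a2, a3⟩ := hsup e he
      rw [hc0 _ a1, hc0 _ a2, a3]
    constructor
    · refine (hf0 Q hQ hd (l.V₀ × l.V₁) (fun x => (l.z₀ x, l.z₁ x))
        (fun s => (l.z₀' (s.1, s.2.1, s.2.2 / 2 ^ (W₁ - W₀)), l.z₁' s)) hcl).trans ?_
      refine CH_mono_cond hQ.nonneg fun e e' he he' hh => ?_
      simp only [Prod.mk.injEq] at hh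
      obtain ⟨h1, ⟨h2, h3⟩, -⟩ := hh
      obtain ⟨a1, a2, a3⟩ := hsup e he
      obtain ⟨b1, b2, b3⟩ := hsup e' he'
      have k1 := hcl _ a2
      have k2 := hcl _ b2
      simp only [Prod.mk.injEq] at k1 k2
      unfold lbF
      simp only [Prod.mk.injEq]
      refine ⟨h1, ?_, ?_, hTW _ _ h1⟩
      · rw [k1.2, k2.2, h3]
      · rw [hz0 e he, hz0 e' he', k1.1, k2.1, h2]
    · have h1 := ht0 Q hQ hd
      have h2 : CH Q (fun e => F.T e.1) (fun e => e.2) ≤ CH Q (fun e => F.T e.1) (lbF l W₀) := by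
        refine CH_mono_cond hQ.nonneg fun e e' he he' hh => ?_
        have h3 : e.2 = e'.2 := hh
        obtain ⟨a1, a2, a3⟩ := hsup e he
        obtain ⟨b1, b2, b3⟩ := hsup e' he'
        unfold lbF
        rw [hz0 e he, hz0 e' he', hT1 _ _ _ a3, hT1 _ _ _ b3, h3]
      have h3 : ((J - W₁ : ℕ) : ℝ) ≤ ((J - W₀ : ℕ) : ℝ) := by exact_mod_cast (by omega)
      have h4 := mul_le_mul_of_nonneg_right h3 hl2.le
      linarith
  · -- the own leaf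
    obtain ⟨r, hr, hpsh, hrd⟩ := fst_law hl hQ hd
    obtain ⟨Q', hQ', hpsh', hd'⟩ := own_pair hl hr hC0 hrd (slam F W₁)
    have hsup : ∀ e, 0 < Q' e → A e.1 ∧ A e.2 ∧ slam F W₁ e.1 = slam F W₁ e.2 := by
      intro e he
      have h1 : 0 < P2 (Pool.Agent.H49.Ent.cond F.p A True) (slam F W₁) e :=
        pos_of_mul_pos_right (he.trans_le (hd' e)) hC0
      have h3 := (P2_pos hl e).1 h1
      exact ⟨cond_supp h3.1, cond_supp h3.2.1, h3.2.2⟩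
    have hz : ∀ e, 0 < Q' e → l.z₀ (ptr F J e.1) = l.z₀ (ptr F J e.2) ∧
        l.z₁ (ptr F J e.1) = l.z₁ (ptr F J e.2) := by
      intro e he
      obtain ⟨a1, a2, a3⟩ := hsup e he
      exact ⟨by rw [hc0 _ a1, hc0 _ a2, hsc _ _ a3], by rw [hc1 _ a1, hc1 _ a2, a3]⟩
    obtain ⟨ρO, hρO⟩ : ∃ ρO : F.Ω → l.V₁ × (l.V₀ × ℕ), ρO = fun ω =>
      (l.z₁ (ptr F J ω), (l.z₀ (ptr F J ω), F.T1 W₀ ω)) := ⟨_, rfl⟩
    have hlb : lbO l W₀ = fun e => ρO e.1 := by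
      rw [hρO]
      rfl
    rw [hlb]
    constructor
    · have h1 : CH Q (fun e (i : Fin 3) => F.X J e.1 (c i)) (fun e => (F.T e.1, ρO e.1)) =
          CH r (fun ω (i : Fin 3) => F.X J ω (c i)) (fun ω => (F.T ω, ρO ω)) :=
        hpsh.CH_eq (fun ω (i : Fin 3) => F.X J ω (c i)) (fun ω => (F.T ω, ρO ω))
      have h2 : CH Q' (fun e (i : Fin 3) => F.X J e.1 (c i)) (fun e => (F.T e.1, ρO e.1)) =
          CH r (fun ω (i : Fin 3) => F.X J ω (c i)) (fun ω => (F.T ω, ρO ω)) :=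
        hpsh'.CH_eq (fun ω (i : Fin 3) => F.X J ω (c i)) (fun ω => (F.T ω, ρO ω))
      rw [h1, ← h2]
      refine (hf1 Q' hQ' hd' (l.V₀ × l.V₁) (fun x => (l.z₀ x, l.z₁ x))
        (fun s => (l.z₀' (s.1, s.2.1, s.2.2 / 2 ^ (W₁ - W₀)), l.z₁' s)) hcl).trans ?_
      refine CH_mono_cond hQ'.nonneg fun e e' he he' hh => ?_
      simp only [Prod.mk.injEq] at hh
      obtain ⟨h1, ⟨h2, h3⟩, -⟩ := hh
      obtain ⟨a1, a2, a3⟩ := hsup e he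
      obtain ⟨b1, b2, b3⟩ := hsup e' he'
      have k1 := hcl _ a2
      have k2 := hcl _ b2
      simp only [Prod.mk.injEq] at k1 k2
      rw [hρO]
      simp only [Prod.mk.injEq]
      refine ⟨h1, ?_, ?_, hTW _ _ h1⟩
      · rw [(hz e he).2, (hz e' he').2, k1.2, k2.2, h3]
      · rw [(hz e he).1, (hz e' he').1, k1.1, k2.1, h2]
    · have h1 : CH Q (fun e => F.T e.1) (fun e => ρO e.1) = CH r F.T ρO := hpsh.CH_eq F.T ρO
      have h2 : CH Q' (fun e => F.T e.1) (fun e => ρO e.1) = CH r F.T ρO := hpsh'.CH_eq F.T ρO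
      rw [h1, ← h2]
      refine (ht1 Q' hQ' hd').trans ?_
      refine CH_mono_cond hQ'.nonneg fun e e' he he' hh => ?_
      have h3 : e.2 = e'.2 := hh
      obtain ⟨a1, a2, a3⟩ := hsup e he
      obtain ⟨b1, b2, b3⟩ := hsup e' he'
      rw [hρO]
      simp only
      rw [(hz e he).1, (hz e' he').1, (hz e he).2, (hz e' he').2, hT1 _ _ _ (hsc _ _ a3),
        hT1 _ _ _ (hsc _ _ b3), h3]

/-! ### The index of the slanted cell -/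

/-- The rounded point in the slanted system. -/
theorem dv_le {F : Fam m J} {c : ℕ → Fin m} (l : PLab F) (htri : ∀ v, TriN (l.P v)) (W W₀ L : ℕ)
    (q : Fin 4 → ℝ) {ω : F.Ω} (hb : ∀ i < 2, |ntc F c l.P l.z₀ ω i| ≤ 1 / 2 ^ l.g i)
    (hq : |nx F c l.P l.z₀ l.g ω 2 - lfv F c l.P l.z₀ l.g W₀ q ω| ≤ 1 / 2 ^ L) (i : Fin 3) :
    |bpx F c 3 W ω i.succ - eval (bpx F c 3 W ω)
      (gsy 3 W (sls (l.P (l.z₀ (ptr F J ω))) l.g W₀ (F.T1 W₀ ω) q) i.succ)| ≤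
      2 ^ W / 2 ^ wdS W₀ l.g L i.succ := by
  have pW : (0 : ℝ) < 2 ^ W := by positivity
  have htr := htri (l.z₀ (ptr F J ω))
  have hs := sls_tri htr l.g W₀ (F.T1 W₀ ω) q
  have h1 : eval (bpx F c 3 W ω)
      (gsy 3 W (sls (l.P (l.z₀ (ptr F J ω))) l.g W₀ (F.T1 W₀ ω) q) i.succ) =
      2 ^ W * eval (px c (ptr F J ω))
        (sls (l.P (l.z₀ (ptr F J ω))) l.g W₀ (F.T1 W₀ ω) q (i.val + 1)) := by
    rw [gsy_succ]
    exact eval_bpx c 3 W ω ((hs _).trans (Finset.range_mono (by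
      have := i.2
      omega)))
  have h2 : bpx F c 3 W ω i.succ = 2 ^ W * px c (ptr F J ω) (i.val + 1) := rfl
  rw [h1, h2, ← mul_sub, abs_mul, abs_of_pos pW, div_eq_mul_one_div]
  refine mul_le_mul_of_nonneg_left ?_ pW.le
  have hi : i = 0 ∨ i = 1 ∨ i = 2 := by
    fin_cases i
    · exact Or.inl rfl
    · exact Or.inr (Or.inl rfl)
    · exact Or.inr (Or.inr rfl)
  rcases hi with rfl | rfl | rfl
  · exact hb 0 (by norm_num)
  · exact hb 1 (by norm_num)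
  · have e1 : sls (l.P (l.z₀ (ptr F J ω))) l.g W₀ (F.T1 W₀ ω) q ((2 : Fin 3).val + 1) =
        shN (l.P (l.z₀ (ptr F J ω))) l.g W₀ (F.T1 W₀ ω) q := if_pos rfl
    have e2 : wdS W₀ l.g L (Fin.succ (2 : Fin 3)) = l.g 2 + L := rfl
    have e0 : px c (ptr F J ω) 0 = F.t ω := if_pos rfl
    rw [e1, e2, eval_shN]
    have p2 : (0 : ℝ) < 2 ^ l.g 2 := by positivity
    have e3 : px c (ptr F J ω) ((2 : Fin 3).val + 1) - (eval (px c (ptr F J ω))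
        (l.P (l.z₀ (ptr F J ω)) 3) + 1 / 2 ^ l.g 2 * lev q
          (2 ^ W₀ * px c (ptr F J ω) 0 - (F.T1 W₀ ω : ℝ))
          (2 ^ l.g 0 * (px c (ptr F J ω) 1 - eval (px c (ptr F J ω))
            (l.P (l.z₀ (ptr F J ω)) 1)))
          (2 ^ l.g 1 * (px c (ptr F J ω) 2 - eval (px c (ptr F J ω))
            (l.P (l.z₀ (ptr F J ω)) 2)))) =
        1 / 2 ^ l.g 2 * (nx F c l.P l.z₀ l.g ω 2 - lfv F c l.P l.z₀ l.g W₀ q ω) := by
      rw [e0]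
      unfold lfv nx nt ntc
      have e4 : ((2 : Fin 3).val + 1) = 2 + 1 := rfl
      rw [e4]
      field_simp
      ring
    rw [e3, abs_mul, abs_of_pos (by positivity : (0 : ℝ) < 1 / 2 ^ l.g 2), pow_add, one_div,
      one_div, mul_inv]
    refine mul_le_mul_of_nonneg_left ?_ (by positivity)
    rw [← one_div]
    exact hq

/-- The index of a digit. -/
theorem idx_le {x : ℝ} {N : ℕ} (hN : 1 ≤ N) {κ : ℝ} (h : |x| ≤ κ * N) :
    -(κ + 1) ≤ ((⌊x⌋ / (N : ℤ) : ℤ) : ℝ) ∧ ((⌊x⌋ / (N : ℤ) : ℤ) : ℝ) ≤ κ := by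
  have hN0 : (0 : ℝ) < N := by exact_mod_cast hN
  have h3 : ⌊x⌋ / (N : ℤ) = ⌊x / N⌋ := by
    rw [Int.floor_div_natCast]
  rw [h3]
  have h4 : |x / N| ≤ κ := by
    rw [abs_div, abs_of_pos hN0, div_le_iff₀ hN0]
    exact h
  have a1 := Int.floor_le (x / N)
  have a2 := Int.lt_floor_add_one (x / N)
  rw [abs_le] at h4
  constructor <;> linarith [h4.1, h4.2]

/-- **The index of the slanted cell has few values.** -/
theorem idx_S {F : Fam m J} {c : ℕ → Fin m} (l : PLab F) (htri : ∀ v, TriN (l.P v))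
    {W W₀ P L sg : ℕ} (hW : W₀ ≤ W) (hWP : W ≤ P) (hP : P ≤ J)
    {lv : l.V₁ → l.V₀ → Fin 4 → ℝ} {Lg : ℝ} (hLg : 0 ≤ Lg)
    (hN : ∀ i, 4 + 16 * Lg ≤ nwS P W₀ l.g L 0 i) (hwd : ∀ i, wdS W₀ l.g L i ≤ P)
    {γ : l.V₁ × (l.V₀ × ℕ)} {ω ω' : F.Ω}
    (hz : γ.2.1 = l.z₀ (ptr F J ω)) (hz' : γ.2.1 = l.z₀ (ptr F J ω'))
    (hT : γ.2.2 = F.T1 W₀ ω) (hT' : γ.2.2 = F.T1 W₀ ω')
    (hgr : ∀ i j (x : Fin 4 → ℝ), |eval x (pderiv j (sG l W W₀ lv γ i))| ≤ Lg)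
    (hb : ∀ i < 2, |ntc F c l.P l.z₀ ω i| ≤ 1 / 2 ^ l.g i)
    (hb' : ∀ i < 2, |ntc F c l.P l.z₀ ω' i| ≤ 1 / 2 ^ l.g i)
    (hq : |nx F c l.P l.z₀ l.g ω 2 - lfv F c l.P l.z₀ l.g W₀ (lv γ.1 γ.2.1) ω| ≤ 1 / 2 ^ L)
    (hq' : |nx F c l.P l.z₀ l.g ω' 2 - lfv F c l.P l.z₀ l.g W₀ (lv γ.1 γ.2.1) ω'| ≤ 1 / 2 ^ L)
    (i : Fin 4) :
    |((nidx (nwS P W₀ l.g L 0) (dgS l c W W₀ P sg lv γ ω) i -
      nidx (nwS P W₀ l.g L 0) (dgS l c W W₀ P sg lv γ ω') i : ℤ) : ℝ)| ≤ 4 := by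
  obtain ⟨M, hM⟩ : ∃ M : ℕ, M = 2 ^ (P - W) := ⟨_, rfl⟩
  have hM0 : (0 : ℝ) < M := by
    rw [hM]
    positivity
  have hW0P : W₀ ≤ P := hW.trans hWP
  have htriG : TriP (sG l W W₀ lv γ) := gsy_tri (sls_tri (htri _) _ _ _ _)
  refine Fin.cases ?_ (fun i => ?_) i
  · have key : ∀ ω : F.Ω, γ.2.2 = F.T1 W₀ ω →
        nidx (nwS P W₀ l.g L 0) (dgS l c W W₀ P sg lv γ ω) 0 = (γ.2.2 : ℤ) := by
      intro ω h
      have h1 := (xte_dig c 3 W P sg ω (G := sG l W W₀ lv γ) rfl).2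
      show (dgS l c W W₀ P sg lv γ ω 0) / ((nwS P W₀ l.g L 0 0 : ℕ) : ℤ) = _
      have h2 : dgS l c W W₀ P sg lv γ ω 0 = ((F.T ω / 2 ^ (J - P) : ℕ) : ℤ) := h1
      have h3 : nwS P W₀ l.g L 0 0 = 2 ^ (P - W₀) := rfl
      rw [h2, h3, h]
      have h4 : F.T1 W₀ ω = F.T ω / 2 ^ (J - P) / 2 ^ (P - W₀) := by
        rw [Nat.div_div_eq_div_mul, ← pow_add]
        have : J - P + (P - W₀) = J - W₀ := by omega
        rw [this]
        rfl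
      rw [h4]
      push_cast
      rfl
    rw [key ω hT, key ω' hT', sub_self]
    norm_num
  · have key : ∀ ω : F.Ω, γ.2.1 = l.z₀ (ptr F J ω) → γ.2.2 = F.T1 W₀ ω →
        (∀ i < 2, |ntc F c l.P l.z₀ ω i| ≤ 1 / 2 ^ l.g i) →
        |nx F c l.P l.z₀ l.g ω 2 - lfv F c l.P l.z₀ l.g W₀ (lv γ.1 γ.2.1) ω| ≤ 1 / 2 ^ L →
        -(3 / 2 + 1) ≤ ((nidx (nwS P W₀ l.g L 0) (dgS l c W W₀ P sg lv γ ω) i.succ : ℤ) : ℝ) ∧
          ((nidx (nwS P W₀ l.g L 0) (dgS l c W W₀ P sg lv γ ω) i.succ : ℤ) : ℝ) ≤ 3 / 2 := by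
      intro ω hz hT hb hq
      have h1 := dv_le (c := c) l htri W W₀ L (lv γ.1 γ.2.1) hb hq i
      have e1 : gsy 3 W (sls (l.P (l.z₀ (ptr F J ω))) l.g W₀ (F.T1 W₀ ω) (lv γ.1 γ.2.1)) =
          sG l W W₀ lv γ := by
        rw [← hz, ← hT]
        rfl
      rw [e1] at h1
      obtain ⟨x, hx⟩ : ∃ x, x = bse (xte c 3 W P sg F ω) := ⟨_, rfl⟩
      have h2 : ∀ j, |bpx F c 3 W ω j - x j| ≤ 2 / M := by
        intro j
        rw [hx, hM]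
        exact bpx_near c 3 sg hWP hP ω j
      have h3 := lip_tri (sG l W W₀ lv γ i.succ) hLg (by positivity : (0 : ℝ) ≤ 2 / M)
        (fun j y => hgr _ j y) i.succ (fun j hj => htriG _ j hj) (u := x) (u' := bpx F c 3 W ω)
        (fun j _ => h2 j)
      have h4 := h2 i.succ
      have hN1 : 1 ≤ nwS P W₀ l.g L 0 i.succ := nwS_pos _ _ _ _ _ _
      obtain ⟨N, hNe⟩ : ∃ N : ℕ, N = nwS P W₀ l.g L 0 i.succ := ⟨_, rfl⟩
      have hN4 := hN i.succ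
      have hwd' := hwd i.succ
      have hNM : (2 : ℝ) ^ W / 2 ^ wdS W₀ l.g L i.succ = N / M := by
        rw [hNe, hM]
        unfold nwS
        push_cast
        rw [Nat.add_zero, div_eq_div_iff (by positivity) (by positivity), ← pow_add, ← pow_add]
        congr 1
        omega
      rw [hNM] at h1
      show -(3 / 2 + 1) ≤ ((dgS l c W W₀ P sg lv γ ω i.succ / ((nwS P W₀ l.g L 0 i.succ : ℕ) : ℤ) :
        ℤ) : ℝ) ∧ ((dgS l c W W₀ P sg lv γ ω i.succ / ((nwS P W₀ l.g L 0 i.succ : ℕ) : ℤ) :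
        ℤ) : ℝ) ≤ 3 / 2
      have e5 : dgS l c W W₀ P sg lv γ ω i.succ =
          ⌊(M : ℝ) * (x i.succ - eval x (sG l W W₀ lv γ i.succ))⌋ := by
        rw [hx, hM]
        rfl
      rw [e5]
      refine idx_le hN1 ?_
      rw [← hNe] at hN4 ⊢
      have h5 : |x i.succ - eval x (sG l W W₀ lv γ i.succ)| ≤ N / M + (2 + 8 * Lg) / M := by
        have e6 : (2 + 8 * Lg) / (M : ℝ) = 2 / M + ((4 : ℕ) : ℝ) * Lg * (2 / M) := by
          push_cast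
          ring
        rw [e6]
        rw [abs_le] at h1 h3 h4 ⊢
        constructor <;> linarith [h1.1, h1.2, h3.1, h3.2, h4.1, h4.2]
      rw [abs_mul, abs_of_pos hM0]
      calc (M : ℝ) * |x i.succ - eval x (sG l W W₀ lv γ i.succ)| ≤
            M * (N / M + (2 + 8 * Lg) / M) := mul_le_mul_of_nonneg_left h5 hM0.le
        _ = N + (2 + 8 * Lg) := by
          field_simp
        _ ≤ 3 / 2 * N := by linarith
    have a1 := key ω hz hT hb hq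
    have a2 := key ω' hz' hT' hb' hq'
    push_cast
    rw [abs_le]
    constructor <;> linarith [a1.1, a1.2, a2.1, a2.2]

/-! ### Fullness -/

/-- **Fullness of the digits in the slanted cells**, for the leaf of the second sample and for the
own leaf. -/
theorem sful {S : PCl m}
    (hmem : ∀ (τ : ℝ) (J : ℕ) (F : Fam m J) (A : F.Ω → Prop), S.St τ J F A →
      F.Tr ∧ F.Tm (τ * J) ∧ F.Rb (τ * J) ∧ Real.exp (-(τ * J)) ≤ Pe F.p A)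
    (hKP : KP 3) {c : ℕ → Fin m} {N : MNum} {K D : ℕ} {b y bb : ℝ} (hw0 : 0 ≤ N.w0)
    (h01 : N.w0 ≤ N.w1) (hw1 : N.w1 ≤ 1) (hb : 0 < b) (hyb : y ≤ b) (hwy : N.w1 - N.w0 ≤ y)
    (hsl : N.sl ≤ b / 100) (h0 : N.w0 ≤ N.β 2 + b)
    (hβ : ∀ i < 2, N.β i ≤ N.β 2 + b)
    (hex : ExvY S N.w1 (fun J F ω (i : Fin 3) => F.X J ω (c i)) bb)
    (hbb : (∑ i ∈ range 3, (1 - N.β i)) - N.fall - y ≤ bb) :
    ∃ φ : ℝ, 0 < φ ∧ Bas S (fun J F A => ∀ (d : MDat N φ K D F c A)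
      (lv : d.lb.V₁ → d.lb.V₀ → Fin 4 → ℝ) (Q : F.Ω × F.Ω → ℝ) (P sg : ℕ), IsLaw Q →
      (∀ e, Q e ≤ 2 * q2 F A ⌊N.w0 * J⌋₊ e) →
      (∀ e, 0 < Q e → d.lb.Shv c ⌊N.w0 * J⌋₊ ⌊b * J⌋₊ ⌊(N.fall - b) * J⌋₊ lv e) →
      ⌊N.w1 * J⌋₊ ≤ P → P ≤ J →
      (∀ i, wdS ⌊N.w0 * J⌋₊ d.gU ⌊(N.fall - b) * J⌋₊ i + ⌊4 * b * J⌋₊ ≤ P) →
      ∀ R : F.Ω × F.Ω → d.lb.V₁ × (d.lb.V₀ × ℕ),
      (R = lbF d.lb ⌊N.w0 * J⌋₊ ∨ R = lbO d.lb ⌊N.w0 * J⌋₊) →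
      ∑ i, Real.log (nwS P ⌊N.w0 * J⌋₊ d.gU ⌊(N.fall - b) * J⌋₊ 0 i) -
        CH Q (fun e => nrem (nwS P ⌊N.w0 * J⌋₊ d.gU ⌊(N.fall - b) * J⌋₊ 0)
          (dgS d.lb c ⌊N.w1 * J⌋₊ ⌊N.w0 * J⌋₊ P sg lv (R e) e.1))
        (fun e => (R e, nidx (nwS P ⌊N.w0 * J⌋₊ d.gU ⌊(N.fall - b) * J⌋₊ 0)
          (dgS d.lb c ⌊N.w1 * J⌋₊ ⌊N.w0 * J⌋₊ P sg lv (R e) e.1))) ≤ 9 * b * J) := by
  classical
  have hl2 : 0 < Real.log 2 := Real.log_pos one_lt_two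
  have hl21 : Real.log 2 ≤ 694 / 1000 := by
    have := Real.log_two_lt_d9
    linarith
  obtain ⟨φ, hφ⟩ : ∃ φ, φ = b / 16 := ⟨_, rfl⟩
  have hφ0 : 0 < φ := by rw [hφ]; positivity
  obtain ⟨J₁, hJ₁⟩ := exists_nat_ge (200 / b)
  refine ⟨φ, hφ0, ?_⟩
  refine (ent_two hKP hmem h01 hw1 hex (C := 2) (by norm_num) (ρ := b / 16)
    (by positivity)).mono J₁ ?_
  rintro J hJ F A ⟨hA, hent⟩
  intro d lv Q P sg hQ hd hsh hWP hP hwd R hR
  have hJ0 : (0 : ℝ) ≤ J := Nat.cast_nonneg J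
  have hJ1 : (J₁ : ℝ) ≤ J := by exact_mod_cast hJ
  have hbJ : 200 ≤ b * J := by
    have h1 := hJ₁.trans hJ1
    rw [div_le_iff₀ hb] at h1
    linarith
  obtain ⟨W₀, hW₀⟩ : ∃ W, W = ⌊N.w0 * (J : ℝ)⌋₊ := ⟨_, rfl⟩
  obtain ⟨W₁, hW₁⟩ : ∃ W, W = ⌊N.w1 * (J : ℝ)⌋₊ := ⟨_, rfl⟩
  obtain ⟨L, hL⟩ : ∃ L, L = ⌊(N.fall - b) * (J : ℝ)⌋₊ := ⟨_, rfl⟩
  have hW : W₀ ≤ W₁ := by
    rw [hW₀, hW₁]
    exact Nat.floor_le_floor (mul_le_mul_of_nonneg_right h01 hJ0)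
  have hl := isLaw_cond F.isLaw hA
  have hc0 : ∀ ω, A ω → d.lb.z₀ (ptr F J ω) = d.lb.z₀' (slam F ⌊N.w0 * J⌋₊ ω) := d.lb_ok.cls₀
  have hc1 : ∀ ω, A ω → d.lb.z₁ (ptr F J ω) = d.lb.z₁' (slam F ⌊N.w1 * J⌋₊ ω) := d.lb_ok.cls₁
  obtain ⟨hE, hT⟩ := hent d.lb hc0 hc1 Q hQ hd R hR
  rw [← hW₁] at hT hWP ⊢
  have hsup : ∀ e, 0 < Q e → A e.1 := by
    intro e he
    have h1 : 0 < P2 (Pool.Agent.H49.Ent.cond F.p A True) (slam F ⌊N.w0 * J⌋₊) e :=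
      pos_of_mul_pos_right (he.trans_le (hd e)) (by norm_num)
    exact cond_supp ((P2_pos hl e).1 h1).1
  obtain ⟨Lg, hLg⟩ : ∃ Lg : ℝ, Lg = 2 ^ ⌊3 * b * (J : ℝ)⌋₊ := ⟨_, rfl⟩
  have hLg1 : 1 ≤ Lg := by
    rw [hLg]
    exact one_le_pow₀ one_le_two
  have hder : ∀ e, 0 < Q e → ∀ i l (x : Fin 4 → ℝ),
      |eval x (pderiv l (sG d.lb W₁ W₀ lv (R e) i))| ≤ Lg := by
    intro e he i l x
    rw [hLg, hW₀]
    exact sG_der d lv hb hφ0.le (by rw [hφ]; linarith) (by linarith) hw0 hsl h0 hβ (hsup e he)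
      (hsh e he) hR W₁ i l x
  rw [← hW₀] at hsh hwd hR ⊢
  rw [← hL] at hsh hwd ⊢
  have hwd0 : ∀ i, wdS W₀ d.gU L i ≤ P := fun i => (Nat.le_add_right _ _).trans (hwd i)
  have hN : ∀ i, 4 + 16 * Lg ≤ nwS P W₀ d.gU L 0 i := by
    intro i
    have h1 := hwd i
    have h2 : ⌊3 * b * (J : ℝ)⌋₊ + 5 ≤ ⌊4 * b * (J : ℝ)⌋₊ := by
      refine Nat.le_floor ?_
      have h3 := Nat.floor_le (show 0 ≤ 3 * b * (J : ℝ) by positivity)
      push_cast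
      nlinarith
    have h3 : ⌊3 * b * (J : ℝ)⌋₊ + 5 ≤ P - (wdS W₀ d.gU L i + 0) := by omega
    have h4 : (2 : ℝ) ^ (⌊3 * b * (J : ℝ)⌋₊ + 5) ≤ (nwS P W₀ d.gU L 0 i : ℝ) := by
      unfold nwS
      push_cast
      exact pow_le_pow_right₀ one_le_two h3
    refine le_trans ?_ h4
    rw [pow_add, ← hLg]
    linarith
  have hgam : ∀ e, 0 < Q e → (R e).2.1 = d.lb.z₀ (ptr F J e.1) ∧ (R e).2.2 = F.T1 W₀ e.1 ∧
      |nx F c d.lb.P d.lb.z₀ d.lb.g e.1 2 - lfv F c d.lb.P d.lb.z₀ d.lb.g W₀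
        (lv (R e).1 (R e).2.1) e.1| ≤ 1 / 2 ^ L := by
    intro e he
    rcases hR with rfl | rfl
    · exact ⟨rfl, rfl, (hsh e he).2.1⟩
    · exact ⟨rfl, rfl, (hsh e he).1⟩
  have hpos : ∀ e, 0 < Q e → ∀ i < 2, |ntc F c d.lb.P d.lb.z₀ e.1 i| ≤ 1 / 2 ^ d.lb.g i :=
    fun e he i hi => d.posU e.1 (hsup e he) i (by omega)
  have key := ful_s (k := 3) (sx := sg) hQ (fun e : F.Ω × F.Ω => e.1) R c hWP hP
    (G := fun γ => sG d.lb W₁ W₀ lv γ) (fun e _ => rfl)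
    (fun e _ => gsy_tri (sls_tri (d.tri _) _ _ _ _)) (L := Lg) (by linarith)
    (fun e he i l x => hder e he i l x) (nwS P W₀ d.gU L 0) (fun i => nwS_pos _ _ _ _ _ _)
    (B := 4) (fun e e' he he' hRR i => by
      obtain ⟨g1, g2, g3⟩ := hgam e he
      obtain ⟨k1, k2, k3⟩ := hgam e' he'
      have h1 := idx_S (c := c) (sg := sg) d.lb d.tri hW hWP hP (lv := lv) (Lg := Lg)
        (by linarith) hN hwd0 (γ := R e) (ω := e.1) (ω' := e'.1) g1 (by rw [hRR]; exact k1) g2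
        (by rw [hRR]; exact k2) (hder e he) (hpos e he) (hpos e' he') g3
        (by rw [hRR]; exact k3) i
      rw [hRR] at h1 ⊢
      exact h1)
    (E₀ := (bb - b / 16) * Real.log 2 * J)
    (T₀ := ((J - W₁ : ℕ) : ℝ) * Real.log 2 - b / 16 * J) hE hT
  refine key.trans ?_
  -- the numbers
  have hlogN : ∑ i, Real.log (nwS P W₀ d.gU L 0 i) =
      (4 * (P : ℝ) - W₀ - d.gU 0 - d.gU 1 - d.gU 2 - L) * Real.log 2 := by
    have h1 : ∀ i, Real.log (nwS P W₀ d.gU L 0 i) = ((P : ℝ) - wdS W₀ d.gU L i) * Real.log 2 := by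
      intro i
      unfold nwS
      push_cast
      rw [Real.log_pow, Nat.add_zero, Nat.cast_sub (hwd0 i)]
    simp only [h1]
    rw [Fin.sum_univ_four]
    have k0 : wdS W₀ d.gU L 0 = W₀ := rfl
    have k1 : wdS W₀ d.gU L 1 = d.gU 0 := rfl
    have k2 : wdS W₀ d.gU L 2 = d.gU 1 := rfl
    have k3 : wdS W₀ d.gU L 3 = d.gU 2 + L := rfl
    rw [k0, k1, k2, k3]
    push_cast
    ring
  have hW1J : W₁ ≤ J := hWP.trans hP
  rw [hlogN, Nat.cast_sub hW1J, Nat.cast_sub hP]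
  have hlog9 : Real.log (2 * 4 + 1) ≤ 3 := by
    have h1 : Real.log (2 * 4 + 1) ≤ Real.log (2 ^ 4) := Real.log_le_log (by norm_num) (by norm_num)
    rw [Real.log_pow] at h1
    push_cast at h1
    linarith
  have hlogL : Real.log (11 + 8 * ((3 + 1 : ℕ) : ℝ) * Lg) ≤ 5 + 3 * b * J * Real.log 2 := by
    have h1 : 11 + 8 * ((3 + 1 : ℕ) : ℝ) * Lg ≤ 2 ^ 6 * Lg := by
      push_cast
      linarith
    have h2 : Real.log (11 + 8 * ((3 + 1 : ℕ) : ℝ) * Lg) ≤ Real.log (2 ^ 6 * Lg) :=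
      Real.log_le_log (by positivity) h1
    have h5 : Real.log (2 ^ 6 * Lg) = 6 * Real.log 2 +
        (⌊3 * b * (J : ℝ)⌋₊ : ℝ) * Real.log 2 := by
      rw [Real.log_mul (by positivity) (by positivity), Real.log_pow, hLg, Real.log_pow]
      push_cast
      ring
    rw [h5] at h2
    have h3 := Nat.floor_le (show 0 ≤ 3 * b * (J : ℝ) by positivity)
    have h4 := mul_le_mul_of_nonneg_right h3 hl2.le
    linarith
  have g0 := (abs_le.1 (d.numU 0 (by norm_num))).1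
  have g1 := (abs_le.1 (d.numU 1 (by norm_num))).1
  have g2 := (abs_le.1 (d.numU 2 (by norm_num))).1
  have hLf := Nat.lt_floor_add_one ((N.fall - b) * (J : ℝ))
  rw [← hL] at hLf
  have hw1J : 0 ≤ N.w1 * (J : ℝ) := mul_nonneg (hw0.trans h01) hJ0
  have hW1f := Nat.floor_le hw1J
  rw [← hW₁] at hW1f
  have hW0f := Nat.lt_floor_add_one (N.w0 * (J : ℝ))
  rw [← hW₀] at hW0f
  rw [Finset.sum_range_succ, Finset.sum_range_succ, Finset.sum_range_one] at hbb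
  have hyJ : (N.w1 - N.w0) * J ≤ y * J := mul_le_mul_of_nonneg_right hwy hJ0
  have hybJ : y * J ≤ b * J := mul_le_mul_of_nonneg_right hyb hJ0
  have hbbJ := mul_le_mul_of_nonneg_right hbb hJ0
  have hφJ : φ * J = b * J / 16 := by
    rw [hφ]
    ring
  -- the main sum
  have hmain : 4 * (P : ℝ) - W₀ - d.gU 0 - d.gU 1 - d.gU 2 - L - (J - W₁) - (bb - b / 16) * J +
      4 * ((J : ℝ) - P) ≤ 3 * (b * J) + b * J / 4 + 2 := by
    linarith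
  have h9 := mul_le_mul_of_nonneg_right hmain hl2.le
  have h10 : (3 * (b * (J : ℝ)) + b * J / 4 + 2) * Real.log 2 ≤
      (3 * (b * J) + b * J / 4 + 2) * (694 / 1000) :=
    mul_le_mul_of_nonneg_left hl21 (by positivity)
  have h11 : 3 * b * (J : ℝ) * Real.log 2 ≤ 3 * b * J * (694 / 1000) :=
    mul_le_mul_of_nonneg_left hl21 (by positivity)
  have e1 : (4 * (P : ℝ) - W₀ - d.gU 0 - d.gU 1 - d.gU 2 - L) * Real.log 2 -
      (((J : ℝ) - W₁) * Real.log 2 - b / 16 * J) - (bb - b / 16) * Real.log 2 * J +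
      ((3 + 1 : ℕ) : ℝ) * (((J : ℝ) - P) * Real.log 2) =
      (4 * (P : ℝ) - W₀ - d.gU 0 - d.gU 1 - d.gU 2 - L - (J - W₁) - (bb - b / 16) * J +
      4 * ((J : ℝ) - P)) * Real.log 2 + b * J / 16 := by
    push_cast
    ring
  rw [e1]
  obtain ⟨X, hX⟩ : ∃ X, X = b * (J : ℝ) := ⟨_, rfl⟩
  have e2 : 3 * b * (J : ℝ) * (694 / 1000) = 3 * X * (694 / 1000) := by rw [hX]; ring
  have e3 : 9 * b * (J : ℝ) = 9 * X := by rw [hX]; ring
  rw [← hX] at h9 h10 hbJ ⊢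
  rw [e2] at h11
  rw [e3]
  have hlog := hlogL.trans (add_le_add_right h11 5)
  have e4 : ((3 : ℕ) : ℝ) = 3 := by norm_num
  have e5 : ((3 + 1 : ℕ) : ℝ) = 4 := by norm_num
  rw [e4]
  rw [e5] at hlog ⊢
  have hA1 := h9.trans h10
  generalize (4 * (P : ℝ) - W₀ - d.gU 0 - d.gU 1 - d.gU 2 - L - (J - W₁) - (bb - b / 16) * J +
      4 * ((J : ℝ) - P)) * Real.log 2 = u at hA1 ⊢
  generalize Real.log (11 + 8 * 4 * Lg) = v at hlog ⊢
  generalize Real.log (2 * 4 + 1) = w at hlog9 ⊢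
  linarith only [hA1, hlog, hlog9, hbJ]

end Pool.TUB
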